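import Mathlib

/-!
# MP_3581cd_co : disjoint edge pairs with a common union

One uniformity suffices: if for a single `k ≥ 1` every `k`-uniform hypergraph on `n ≥ n_k`
vertices with more than `g * C(n-1,k-1)` edges contains an `r`-fold split, then for every
`K ≥ k` every `K`-uniform hypergraph on `n ≥ n_K` vertices with more than
`2 k^(k-1)/(k-1)! * g * C(n-1,K-1)` edges contains an `r`-fold split.  Hence the statement of Q1
for a given `r` is equivalent to its validity in ONE uniformity.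
-/

namespace Pool.Agent.Results.MP_3581cd_co.OneUniformity

open Finset

/-- `H` contains an `r`-fold split: `2r` pairwise distinct edges `A i, B i` with `A i ∩ B i = ∅`
and all unions `A i ∪ B i` equal. -/
def HasSplit (r : ℕ) {n : ℕ} (H : Finset (Finset (Fin n))) : Prop :=
  ∃ A B : Fin r → Finset (Fin n),
    (∀ i, A i ∈ H ∧ B i ∈ H ∧ Disjoint (A i) (B i)) ∧
    (∀ i j, A i ∪ B i = A j ∪ B j) ∧
    Function.Injective (Sum.elim A B)

/-- For all large `n`, every `k`-uniform hypergraph on `n` vertices with more than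
`g * C(n-1,k-1)` edges contains an `r`-fold split. -/
def GoodAt (r k : ℕ) (g : ℝ) : Prop :=
  ∃ N : ℕ, ∀ n ≥ N, ∀ H : Finset (Finset (Fin n)), (∀ A ∈ H, A.card = k) →
    g * ((n - 1).choose (k - 1) : ℝ) < (H.card : ℝ) → HasSplit r H

/-! ### Counting permutations -/

lemma exists_perm {n : ℕ} (A B : Finset (Fin n)) (h : A.card = B.card) :
    ∃ τ : Equiv.Perm (Fin n), A.map τ.toEmbedding = B := by
  classical
  let e : {x // x ∈ A} ≃ {x // x ∈ B} := Finset.equivOfCardEq h
  refine ⟨e.extendSubtype, ?_⟩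
  apply Finset.eq_of_subset_of_card_le
  · intro y hy
    rw [Finset.mem_map] at hy
    obtain ⟨x, hx, rfl⟩ := hy
    exact e.extendSubtype_mem x hx
  · rw [Finset.card_map, h]

noncomputable def cnt {n : ℕ} (H : Finset (Finset (Fin n))) (A : Finset (Fin n)) : ℕ :=
  ((Finset.univ : Finset (Equiv.Perm (Fin n))).filter
    (fun σ => A.map σ.toEmbedding ∈ H)).card

lemma cnt_eq {n : ℕ} (H : Finset (Finset (Fin n))) (A B : Finset (Fin n))
    (h : A.card = B.card) : cnt H A = cnt H B := by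
  classical
  obtain ⟨τ, hτ⟩ := exists_perm A B h
  unfold cnt
  refine Finset.card_bij' (fun σ _ => σ * τ⁻¹) (fun σ _ => σ * τ) ?_ ?_ ?_ ?_
  · intro σ hσ
    rw [Finset.mem_filter] at hσ ⊢
    refine ⟨Finset.mem_univ _, ?_⟩
    rw [← hτ, Finset.map_map]
    have : (τ.toEmbedding.trans (σ * τ⁻¹).toEmbedding) = σ.toEmbedding := by
      ext x; simp
    rw [this]; exact hσ.2
  · intro σ hσ
    rw [Finset.mem_filter] at hσ ⊢
    refine ⟨Finset.mem_univ _, ?_⟩
    have h2 := hσ.2
    rw [← hτ, Finset.map_map] at h2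
    have : (τ.toEmbedding.trans σ.toEmbedding) = (σ * τ).toEmbedding := by
      ext x; simp
    rw [this] at h2; exact h2
  · intro σ _; simp
  · intro σ _; simp

lemma choose_mul_cnt {n K : ℕ} (H : Finset (Finset (Fin n))) (hH : ∀ A ∈ H, A.card = K)
    (A : Finset (Fin n)) (hA : A.card = K) :
    n.choose K * cnt H A = n.factorial * H.card := by
  classical
  have h1 : ∑ B ∈ Finset.powersetCard K (Finset.univ : Finset (Fin n)), cnt H B
      = n.choose K * cnt H A := by
    rw [Finset.sum_congr rfl (g := fun _ => cnt H A)]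
    · rw [Finset.sum_const, Finset.card_powersetCard, Finset.card_univ, Fintype.card_fin,
        smul_eq_mul]
    · intro B hB
      rw [Finset.mem_powersetCard] at hB
      exact cnt_eq H B A (by rw [hB.2, hA])
  rw [← h1]
  have h2 := Finset.sum_card_bipartiteAbove_eq_sum_card_bipartiteBelow
    (s := Finset.powersetCard K (Finset.univ : Finset (Fin n)))
    (t := (Finset.univ : Finset (Equiv.Perm (Fin n))))
    (fun (B : Finset (Fin n)) (σ : Equiv.Perm (Fin n)) => B.map σ.toEmbedding ∈ H)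
  have h3 : ∑ B ∈ Finset.powersetCard K (Finset.univ : Finset (Fin n)), cnt H B
      = ∑ B ∈ Finset.powersetCard K (Finset.univ : Finset (Fin n)),
        (Finset.bipartiteAbove (fun (B : Finset (Fin n)) (σ : Equiv.Perm (Fin n)) =>
          B.map σ.toEmbedding ∈ H) (Finset.univ : Finset (Equiv.Perm (Fin n))) B).card := by
    refine Finset.sum_congr rfl (fun B _ => ?_)
    unfold cnt Finset.bipartiteAbove
    rfl
  rw [h3, h2]
  rw [Finset.sum_congr rfl (g := fun _ => H.card)]
  · rw [Finset.sum_const, Finset.card_univ, Fintype.card_perm, Fintype.card_fin, smul_eq_mul]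
  · intro σ _
    unfold Finset.bipartiteBelow
    refine Finset.card_bij' (fun B _ => B.map σ.toEmbedding) (fun B _ => B.map σ⁻¹.toEmbedding)
      ?_ ?_ ?_ ?_
    · intro B hB
      rw [Finset.mem_filter] at hB; exact hB.2
    · intro B hB
      rw [Finset.mem_filter, Finset.mem_powersetCard]
      refine ⟨⟨Finset.subset_univ _, ?_⟩, ?_⟩
      · rw [Finset.card_map]; exact hH B hB
      · change (B.map σ⁻¹.toEmbedding).map σ.toEmbedding ∈ H
        rw [Finset.map_map]
        have : (σ⁻¹.toEmbedding.trans σ.toEmbedding) = Function.Embedding.refl _ := by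
          ext x; simp
        rw [this, Finset.map_refl]; exact hB
    · intro B _
      rw [Finset.map_map]
      have : (σ.toEmbedding.trans σ⁻¹.toEmbedding) = Function.Embedding.refl _ := by
        ext x; simp
      rw [this, Finset.map_refl]
    · intro B _
      rw [Finset.map_map]
      have : (σ⁻¹.toEmbedding.trans σ.toEmbedding) = Function.Embedding.refl _ := by
        ext x; simp
      rw [this, Finset.map_refl]

/-! ### The template -/

section template

variable {k K M n N : ℕ} (π : Fin K → Fin k) (ι : Fin K × Fin M ↪ Fin n)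
  (e : Fin k × Fin M ≃ Fin N)

/-- the small edge of a choice function -/
def E (f : Fin k → Fin M) : Finset (Fin N) :=
  Finset.univ.image (fun j => e (j, f j))

/-- the large edge of a choice function -/
def U (f : Fin k → Fin M) : Finset (Fin n) :=
  Finset.univ.image (fun x => ι (x, f (π x)))

lemma mem_E (f : Fin k → Fin M) (j : Fin k) (y : Fin M) : e (j, y) ∈ E e f ↔ f j = y := by
  unfold E
  rw [Finset.mem_image]
  constructor
  · rintro ⟨i, _, hi⟩
    have := e.injective hi
    rw [Prod.mk.injEq] at this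
    rw [← this.1]; exact this.2
  · intro h
    exact ⟨j, Finset.mem_univ _, by rw [h]⟩

lemma E_card (f : Fin k → Fin M) : (E e f).card = k := by
  unfold E
  rw [Finset.card_image_of_injective, Finset.card_univ, Fintype.card_fin]
  intro i j h
  have := e.injective h
  rw [Prod.mk.injEq] at this
  exact this.1

lemma E_inj : Function.Injective (E (k := k) e) := by
  intro f g h
  funext j
  have h1 : e (j, g j) ∈ E e g := (mem_E e g j (g j)).2 rfl
  rw [← h] at h1
  exact (mem_E e f j (g j)).1 h1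

lemma mem_U (f : Fin k → Fin M) (v : Fin n) :
    v ∈ U π ι f ↔ ∃ x y, v = ι (x, y) ∧ e (π x, y) ∈ E e f := by
  unfold U
  rw [Finset.mem_image]
  constructor
  · rintro ⟨x, _, hx⟩
    exact ⟨x, f (π x), hx.symm, (mem_E e f (π x) (f (π x))).2 rfl⟩
  · rintro ⟨x, y, hv, hy⟩
    refine ⟨x, Finset.mem_univ _, ?_⟩
    rw [(mem_E e f (π x) y).1 hy, hv]

lemma U_card (f : Fin k → Fin M) : (U π ι f).card = K := by
  unfold U
  rw [Finset.card_image_of_injective, Finset.card_univ, Fintype.card_fin]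
  intro i j h
  have := ι.injective h
  rw [Prod.mk.injEq] at this
  exact this.1

lemma U_inj (hπ : Function.Surjective π) : Function.Injective (U (k := k) π ι) := by
  intro f g h
  funext j
  obtain ⟨x, rfl⟩ := hπ j
  have h1 : ι (x, f (π x)) ∈ U π ι f := Finset.mem_image.2 ⟨x, Finset.mem_univ _, rfl⟩
  rw [h] at h1
  obtain ⟨y, _, hy⟩ := Finset.mem_image.1 h1
  have := ι.injective hy
  rw [Prod.mk.injEq] at this
  obtain ⟨h2, h3⟩ := this
  subst h2
  exact h3.symm

lemma U_disjoint (f g : Fin k → Fin M) (h : Disjoint (E e f) (E e g)) :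
    Disjoint (U π ι f) (U π ι g) := by
  rw [Finset.disjoint_left] at h ⊢
  intro v hv hv'
  obtain ⟨x, y, h1, h2⟩ := (mem_U π ι e f v).1 hv
  obtain ⟨x', y', h3, h4⟩ := (mem_U π ι e g v).1 hv'
  rw [h1] at h3
  have := ι.injective h3
  rw [Prod.mk.injEq] at this
  obtain ⟨h5, h6⟩ := this
  subst h5; subst h6
  exact h h2 h4

lemma U_union (f g f' g' : Fin k → Fin M) (h : E e f ∪ E e g = E e f' ∪ E e g') :
    U π ι f ∪ U π ι g = U π ι f' ∪ U π ι g' := by
  have key : ∀ (f g : Fin k → Fin M) (v : Fin n), v ∈ U π ι f ∪ U π ι g ↔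
      ∃ x y, v = ι (x, y) ∧ e (π x, y) ∈ E e f ∪ E e g := by
    intro f g v
    rw [Finset.mem_union, mem_U π ι e f v, mem_U π ι e g v]
    constructor
    · rintro (⟨x, y, h1, h2⟩ | ⟨x, y, h1, h2⟩)
      · exact ⟨x, y, h1, Finset.mem_union_left _ h2⟩
      · exact ⟨x, y, h1, Finset.mem_union_right _ h2⟩
    · rintro ⟨x, y, h1, h2⟩
      rcases Finset.mem_union.1 h2 with h2 | h2
      · exact Or.inl ⟨x, y, h1, h2⟩
      · exact Or.inr ⟨x, y, h1, h2⟩
  ext v
  rw [key f g v, key f' g' v, h]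

/-- A split among the small edges gives a split among the large edges. -/
lemma split_transfer (r : ℕ) (hπ : Function.Surjective π) (σ : Equiv.Perm (Fin n))
    (H : Finset (Finset (Fin n))) (F : Finset (Fin k → Fin M))
    (hF : ∀ f ∈ F, (U π ι f).map σ.toEmbedding ∈ H)
    (hs : HasSplit r (F.image (E e))) : HasSplit r H := by
  classical
  obtain ⟨A, B, h1, h2, h3⟩ := hs
  have hA : ∀ i, ∃ f ∈ F, E e f = A i := fun i => Finset.mem_image.1 (h1 i).1
  have hB : ∀ i, ∃ f ∈ F, E e f = B i := fun i => Finset.mem_image.1 (h1 i).2.1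
  choose a haF haE using hA
  choose b hbF hbE using hB
  refine ⟨fun i => (U π ι (a i)).map σ.toEmbedding, fun i => (U π ι (b i)).map σ.toEmbedding,
    ?_, ?_, ?_⟩
  · intro i
    refine ⟨hF _ (haF i), hF _ (hbF i), ?_⟩
    rw [Finset.disjoint_map]
    apply U_disjoint π ι e
    rw [haE, hbE]; exact (h1 i).2.2
  · intro i j
    change (U π ι (a i)).map σ.toEmbedding ∪ (U π ι (b i)).map σ.toEmbedding
      = (U π ι (a j)).map σ.toEmbedding ∪ (U π ι (b j)).map σ.toEmbedding
    rw [← Finset.map_union, ← Finset.map_union, U_union π ι e (a i) (b i) (a j) (b j)]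
    rw [haE, hbE, haE, hbE]; exact h2 i j
  · have hinj : Function.Injective
        (fun f : Fin k → Fin M => (U π ι f).map σ.toEmbedding) := by
      intro f g h
      exact U_inj π ι hπ (Finset.map_injective _ h)
    have e1 : Sum.elim (fun i => (U π ι (a i)).map σ.toEmbedding)
        (fun i => (U π ι (b i)).map σ.toEmbedding)
        = (fun f : Fin k → Fin M => (U π ι f).map σ.toEmbedding) ∘ Sum.elim a b := by
      funext s; rcases s with s | s <;> rfl
    have e2 : Sum.elim A B = E e ∘ Sum.elim a b := by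
      funext s; rcases s with s | s
      · exact (haE s).symm
      · exact (hbE s).symm
    rw [e1]
    rw [e2] at h3
    exact hinj.comp h3.of_comp

end template

/-! ### The averaging -/

/-- Averaging over all permutations. -/
lemma averaging {k K M n : ℕ} (π : Fin K → Fin k) (ι : Fin K × Fin M ↪ Fin n)
    (H : Finset (Finset (Fin n))) (hH : ∀ A ∈ H, A.card = K) (X : ℝ)
    (hX : ∀ σ : Equiv.Perm (Fin n), (((Finset.univ : Finset (Fin k → Fin M)).filter
      (fun f => (U π ι f).map σ.toEmbedding ∈ H)).card : ℝ) ≤ X) :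
    (M : ℝ) ^ k * H.card ≤ X * n.choose K := by
  classical
  have h2 := Finset.sum_card_bipartiteAbove_eq_sum_card_bipartiteBelow
    (s := (Finset.univ : Finset (Fin k → Fin M)))
    (t := (Finset.univ : Finset (Equiv.Perm (Fin n))))
    (fun (f : Fin k → Fin M) (σ : Equiv.Perm (Fin n)) => (U π ι f).map σ.toEmbedding ∈ H)
  have h3 : ∀ f : Fin k → Fin M, n.choose K *
      (Finset.bipartiteAbove (fun (f : Fin k → Fin M) (σ : Equiv.Perm (Fin n)) =>
        (U π ι f).map σ.toEmbedding ∈ H) (Finset.univ : Finset (Equiv.Perm (Fin n))) f).card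
      = n.factorial * H.card := by
    intro f
    exact choose_mul_cnt H hH (U π ι f) (U_card π ι f)
  have h4 : n.choose K * ∑ f : Fin k → Fin M,
      (Finset.bipartiteAbove (fun (f : Fin k → Fin M) (σ : Equiv.Perm (Fin n)) =>
        (U π ι f).map σ.toEmbedding ∈ H) (Finset.univ : Finset (Equiv.Perm (Fin n))) f).card
      = M ^ k * (n.factorial * H.card) := by
    rw [Finset.mul_sum, Finset.sum_congr rfl (fun f _ => h3 f), Finset.sum_const,
      Finset.card_univ, smul_eq_mul]
    simp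
  have h5 : ((∑ σ : Equiv.Perm (Fin n),
      (Finset.bipartiteBelow (fun (f : Fin k → Fin M) (σ : Equiv.Perm (Fin n)) =>
        (U π ι f).map σ.toEmbedding ∈ H) (Finset.univ : Finset (Fin k → Fin M)) σ).card : ℕ) : ℝ)
      ≤ n.factorial * X := by
    push_cast
    calc (∑ σ : Equiv.Perm (Fin n),
      ((Finset.bipartiteBelow (fun (f : Fin k → Fin M) (σ : Equiv.Perm (Fin n)) =>
        (U π ι f).map σ.toEmbedding ∈ H) (Finset.univ : Finset (Fin k → Fin M)) σ).card : ℝ))
        ≤ ∑ _σ : Equiv.Perm (Fin n), X := Finset.sum_le_sum (fun σ _ => hX σ)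
      _ = n.factorial * X := by
        rw [Finset.sum_const, Finset.card_univ, Fintype.card_perm, Fintype.card_fin, nsmul_eq_mul]
  rw [h2] at h4
  have h6 : (n.choose K : ℝ) * ((∑ σ : Equiv.Perm (Fin n),
      (Finset.bipartiteBelow (fun (f : Fin k → Fin M) (σ : Equiv.Perm (Fin n)) =>
        (U π ι f).map σ.toEmbedding ∈ H) (Finset.univ : Finset (Fin k → Fin M)) σ).card : ℕ) : ℝ)
      = (M : ℝ) ^ k * ((n.factorial : ℝ) * H.card) := by
    exact_mod_cast h4
  have h7 : (M : ℝ) ^ k * ((n.factorial : ℝ) * H.card) ≤ n.choose K * (n.factorial * X) := by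
    rw [← h6]; exact mul_le_mul_of_nonneg_left h5 (Nat.cast_nonneg _)
  have hf : (0 : ℝ) < n.factorial := by exact_mod_cast n.factorial_pos
  nlinarith [h7, hf]

/-- **Transfer of the bound from uniformity `k` to every uniformity `K ≥ k`.** -/
theorem goodAt_mono_uniformity (r k K : ℕ) (hk : 1 ≤ k) (hkK : k ≤ K) (g : ℝ) (hg : 0 ≤ g)
    (h : GoodAt r k g) :
    GoodAt r K (2 * ((k : ℝ) ^ (k - 1) / ((k - 1).factorial : ℝ)) * g) := by
  classical
  obtain ⟨N, hN⟩ := h
  refine ⟨K * (N + 1), ?_⟩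
  intro n hn H hH hlarge
  by_contra hno
  have hK : 1 ≤ K := le_trans hk hkK
  obtain ⟨M, hMdef⟩ : ∃ M, M = n / K := ⟨_, rfl⟩
  have hM1 : N + 1 ≤ M := by
    rw [hMdef, Nat.le_div_iff_mul_le (by omega)]
    rw [Nat.mul_comm]; exact hn
  have hKM : K * M ≤ n := by rw [hMdef]; exact Nat.mul_div_le n K
  have hKM2 : n ≤ 2 * (K * M) := by
    have h1 : n < K * (n / K + 1) := Nat.lt_mul_div_succ n (by omega)
    rw [← hMdef] at h1
    nlinarith
  let π : Fin K → Fin k := fun x => ⟨min x.1 (k - 1), by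
    have := Nat.min_le_right x.1 (k - 1); omega⟩
  have hπ : Function.Surjective π := by
    intro j
    refine ⟨⟨j.1, lt_of_lt_of_le j.2 hkK⟩, ?_⟩
    apply Fin.ext
    change min j.1 (k - 1) = j.1
    have := j.2
    omega
  let ι : Fin K × Fin M ↪ Fin n :=
    (finProdFinEquiv.toEmbedding).trans (Fin.castLEEmb hKM)
  let e : Fin k × Fin M ≃ Fin (k * M) := finProdFinEquiv
  have hkM : N ≤ k * M := by nlinarith
  have hX : ∀ σ : Equiv.Perm (Fin n), (((Finset.univ : Finset (Fin k → Fin M)).filter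
      (fun f => (U π ι f).map σ.toEmbedding ∈ H)).card : ℝ)
      ≤ g * ((k * M - 1).choose (k - 1) : ℝ) := by
    intro σ
    by_contra hlt
    rw [not_le] at hlt
    apply hno
    refine split_transfer π ι e r hπ σ H ((Finset.univ : Finset (Fin k → Fin M)).filter
      (fun f => (U π ι f).map σ.toEmbedding ∈ H)) ?_ ?_
    · intro f hf
      exact (Finset.mem_filter.1 hf).2
    · refine hN (k * M) hkM _ ?_ ?_
      · intro A hA
        obtain ⟨f, _, rfl⟩ := Finset.mem_image.1 hA
        exact E_card e f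
      · rw [Finset.card_image_of_injective _ (E_inj e)]
        exact hlt
  have hav := averaging π ι H hH _ hX
  have hch : ((k * M - 1).choose (k - 1) : ℝ)
      ≤ ((k : ℝ) * M) ^ (k - 1) / ((k - 1).factorial : ℝ) := by
    refine le_trans (Nat.choose_le_pow_div (k - 1) (k * M - 1)) ?_
    refine div_le_div_of_nonneg_right ?_ (Nat.cast_nonneg _)
    refine pow_le_pow_left₀ (Nat.cast_nonneg _) ?_ _
    have : k * M - 1 ≤ k * M := Nat.sub_le _ _
    exact_mod_cast this
  have hid : K * n.choose K = n * (n - 1).choose (K - 1) := by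
    have hn1 : 1 ≤ n := by nlinarith
    obtain ⟨n', rfl⟩ : ∃ n', n = n' + 1 := ⟨n - 1, by omega⟩
    obtain ⟨K', rfl⟩ : ∃ K', K = K' + 1 := ⟨K - 1, by omega⟩
    have := Nat.add_one_mul_choose_eq n' K'
    simp only [Nat.add_sub_cancel]
    rw [this]; ring
  have hidR : (K : ℝ) * (n.choose K : ℝ) = (n : ℝ) * ((n - 1).choose (K - 1) : ℝ) := by
    exact_mod_cast hid
  have hnR : (n : ℝ) ≤ 2 * (K * M) := by exact_mod_cast hKM2
  have hKpos : (0 : ℝ) < K := by exact_mod_cast hK
  have hMpos : (0 : ℝ) < M := by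
    have : 0 < M := by omega
    exact_mod_cast this
  have hpow : (M : ℝ) ^ k = (M : ℝ) ^ (k - 1) * M := by
    rw [← pow_succ]; congr 1; omega
  set D : ℝ := ((n - 1).choose (K - 1) : ℝ) with hD
  have hD0 : 0 ≤ D := Nat.cast_nonneg _
  set c : ℝ := (k : ℝ) ^ (k - 1) / ((k - 1).factorial : ℝ) with hc
  have hc0 : 0 ≤ c := by positivity
  have hch2 : ((k * M - 1).choose (k - 1) : ℝ) ≤ c * (M : ℝ) ^ (k - 1) := by
    refine le_trans hch (le_of_eq ?_)
    rw [hc, mul_pow]; ring
  have hP : (0 : ℝ) < (M : ℝ) ^ (k - 1) := pow_pos hMpos _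
  -- K * M^k * |H| ≤ g * c * M^(k-1) * n * D ≤ K * M^k * (2 c g D)
  have h1 : (K : ℝ) * ((M : ℝ) ^ k * H.card)
      ≤ g * (c * (M : ℝ) ^ (k - 1)) * ((n : ℝ) * D) := by
    calc (K : ℝ) * ((M : ℝ) ^ k * H.card)
        ≤ K * (g * ((k * M - 1).choose (k - 1) : ℝ) * n.choose K) :=
          mul_le_mul_of_nonneg_left hav hKpos.le
      _ = g * ((k * M - 1).choose (k - 1) : ℝ) * (K * n.choose K) := by ring
      _ = g * ((k * M - 1).choose (k - 1) : ℝ) * ((n : ℝ) * D) := by rw [hidR]
      _ ≤ g * (c * (M : ℝ) ^ (k - 1)) * ((n : ℝ) * D) := by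
          refine mul_le_mul_of_nonneg_right ?_ (by positivity)
          exact mul_le_mul_of_nonneg_left hch2 hg
  have h2 : g * (c * (M : ℝ) ^ (k - 1)) * ((n : ℝ) * D)
      ≤ g * (c * (M : ℝ) ^ (k - 1)) * ((2 * (K * M)) * D) := by
    refine mul_le_mul_of_nonneg_left ?_ (by positivity)
    exact mul_le_mul_of_nonneg_right hnR hD0
  have h3 : (K : ℝ) * ((M : ℝ) ^ k * H.card) ≤ (K * ((M : ℝ) ^ (k - 1) * M)) * (2 * c * g * D) := by
    refine le_trans h1 (le_trans h2 (le_of_eq ?_))
    ring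
  rw [hpow] at h3
  have h4 : (K * ((M : ℝ) ^ (k - 1) * M)) * (H.card : ℝ)
      ≤ (K * ((M : ℝ) ^ (k - 1) * M)) * (2 * c * g * D) := by
    calc (K * ((M : ℝ) ^ (k - 1) * M)) * (H.card : ℝ)
        = (K : ℝ) * ((M : ℝ) ^ (k - 1) * M * H.card) := by ring
      _ ≤ _ := h3
  have h5 : (H.card : ℝ) ≤ 2 * c * g * D :=
    le_of_mul_le_mul_left h4 (by positivity)
  linarith

lemma goodAt_mono_const (r k : ℕ) (g g' : ℝ) (hgg : g ≤ g') (h : GoodAt r k g) :
    GoodAt r k g' := by
  obtain ⟨N, hN⟩ := h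
  refine ⟨N, fun n hn H hH hlarge => hN n hn H hH (lt_of_le_of_lt ?_ hlarge)⟩
  exact mul_le_mul_of_nonneg_right hgg (Nat.cast_nonneg _)

/-! ### Multiples of `k`: no loss in the constant -/

section blocks

variable {a k M n : ℕ} (ι : Fin M × Fin a ↪ Fin n)

/-- union of blocks -/
def UB (S : Finset (Fin M)) : Finset (Fin n) :=
  (S ×ˢ (Finset.univ : Finset (Fin a))).map ι

lemma UB_card (S : Finset (Fin M)) : (UB ι S).card = S.card * a := by
  unfold UB
  rw [Finset.card_map, Finset.card_product, Finset.card_univ, Fintype.card_fin]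

lemma UB_inj (ha : 1 ≤ a) : Function.Injective (UB ι) := by
  intro S T h
  have h1 := Finset.map_injective _ h
  ext x
  have h2 : (x, (⟨0, ha⟩ : Fin a)) ∈ S ×ˢ (Finset.univ : Finset (Fin a)) ↔
      (x, (⟨0, ha⟩ : Fin a)) ∈ T ×ˢ (Finset.univ : Finset (Fin a)) := by rw [h1]
  rw [Finset.mem_product, Finset.mem_product] at h2
  simpa using h2

lemma UB_disjoint (S T : Finset (Fin M)) (h : Disjoint S T) : Disjoint (UB ι S) (UB ι T) := by
  unfold UB
  rw [Finset.disjoint_map]
  rw [Finset.disjoint_left] at h ⊢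
  intro x hx hx'
  exact h (Finset.mem_product.1 hx).1 (Finset.mem_product.1 hx').1

lemma UB_union (S T : Finset (Fin M)) : UB ι (S ∪ T) = UB ι S ∪ UB ι T := by
  unfold UB
  rw [← Finset.map_union, Finset.union_product]

lemma split_transfer_blocks (r : ℕ) (ha : 1 ≤ a) (σ : Equiv.Perm (Fin n))
    (H : Finset (Finset (Fin n))) (F : Finset (Finset (Fin M)))
    (hF : ∀ S ∈ F, (UB ι S).map σ.toEmbedding ∈ H) (hs : HasSplit r F) : HasSplit r H := by
  classical
  obtain ⟨A, B, h1, h2, h3⟩ := hs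
  refine ⟨fun i => (UB ι (A i)).map σ.toEmbedding, fun i => (UB ι (B i)).map σ.toEmbedding,
    ?_, ?_, ?_⟩
  · intro i
    refine ⟨hF _ (h1 i).1, hF _ (h1 i).2.1, ?_⟩
    rw [Finset.disjoint_map]
    exact UB_disjoint ι _ _ (h1 i).2.2
  · intro i j
    change (UB ι (A i)).map σ.toEmbedding ∪ (UB ι (B i)).map σ.toEmbedding
      = (UB ι (A j)).map σ.toEmbedding ∪ (UB ι (B j)).map σ.toEmbedding
    rw [← Finset.map_union, ← Finset.map_union, ← UB_union, ← UB_union, h2 i j]
  · have hinj : Function.Injective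
        (fun S : Finset (Fin M) => (UB ι S).map σ.toEmbedding) := by
      intro S T h
      exact UB_inj ι ha (Finset.map_injective _ h)
    have e1 : Sum.elim (fun i => (UB ι (A i)).map σ.toEmbedding)
        (fun i => (UB ι (B i)).map σ.toEmbedding)
        = (fun S : Finset (Fin M) => (UB ι S).map σ.toEmbedding) ∘ Sum.elim A B := by
      funext s; rcases s with s | s <;> rfl
    rw [e1]
    exact hinj.comp h3

lemma averaging_blocks (H : Finset (Finset (Fin n))) (hH : ∀ A ∈ H, A.card = k * a) (X : ℝ)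
    (hX : ∀ σ : Equiv.Perm (Fin n),
      (((Finset.powersetCard k (Finset.univ : Finset (Fin M))).filter
      (fun S => (UB ι S).map σ.toEmbedding ∈ H)).card : ℝ) ≤ X) :
    (M.choose k : ℝ) * H.card ≤ X * n.choose (k * a) := by
  classical
  have h2 := Finset.sum_card_bipartiteAbove_eq_sum_card_bipartiteBelow
    (s := Finset.powersetCard k (Finset.univ : Finset (Fin M)))
    (t := (Finset.univ : Finset (Equiv.Perm (Fin n))))
    (fun (S : Finset (Fin M)) (σ : Equiv.Perm (Fin n)) => (UB ι S).map σ.toEmbedding ∈ H)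
  have h3 : ∀ S ∈ Finset.powersetCard k (Finset.univ : Finset (Fin M)), n.choose (k * a) *
      (Finset.bipartiteAbove (fun (S : Finset (Fin M)) (σ : Equiv.Perm (Fin n)) =>
        (UB ι S).map σ.toEmbedding ∈ H) (Finset.univ : Finset (Equiv.Perm (Fin n))) S).card
      = n.factorial * H.card := by
    intro S hS
    refine choose_mul_cnt H hH (UB ι S) ?_
    rw [UB_card, (Finset.mem_powersetCard.1 hS).2]
  have h4 : n.choose (k * a) * ∑ S ∈ Finset.powersetCard k (Finset.univ : Finset (Fin M)),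
      (Finset.bipartiteAbove (fun (S : Finset (Fin M)) (σ : Equiv.Perm (Fin n)) =>
        (UB ι S).map σ.toEmbedding ∈ H) (Finset.univ : Finset (Equiv.Perm (Fin n))) S).card
      = M.choose k * (n.factorial * H.card) := by
    rw [Finset.mul_sum, Finset.sum_congr rfl h3, Finset.sum_const,
      Finset.card_powersetCard, Finset.card_univ, Fintype.card_fin, smul_eq_mul]
  have h5 : ((∑ σ : Equiv.Perm (Fin n),
      (Finset.bipartiteBelow (fun (S : Finset (Fin M)) (σ : Equiv.Perm (Fin n)) =>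
        (UB ι S).map σ.toEmbedding ∈ H)
        (Finset.powersetCard k (Finset.univ : Finset (Fin M))) σ).card : ℕ) : ℝ)
      ≤ n.factorial * X := by
    push_cast
    calc (∑ σ : Equiv.Perm (Fin n),
      ((Finset.bipartiteBelow (fun (S : Finset (Fin M)) (σ : Equiv.Perm (Fin n)) =>
        (UB ι S).map σ.toEmbedding ∈ H)
        (Finset.powersetCard k (Finset.univ : Finset (Fin M))) σ).card : ℝ))
        ≤ ∑ _σ : Equiv.Perm (Fin n), X := Finset.sum_le_sum (fun σ _ => hX σ)
      _ = n.factorial * X := by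
        rw [Finset.sum_const, Finset.card_univ, Fintype.card_perm, Fintype.card_fin, nsmul_eq_mul]
  rw [h2] at h4
  have h6 : (n.choose (k * a) : ℝ) * ((∑ σ : Equiv.Perm (Fin n),
      (Finset.bipartiteBelow (fun (S : Finset (Fin M)) (σ : Equiv.Perm (Fin n)) =>
        (UB ι S).map σ.toEmbedding ∈ H)
        (Finset.powersetCard k (Finset.univ : Finset (Fin M))) σ).card : ℕ) : ℝ)
      = (M.choose k : ℝ) * ((n.factorial : ℝ) * H.card) := by
    exact_mod_cast h4
  have h7 : (M.choose k : ℝ) * ((n.factorial : ℝ) * H.card)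
      ≤ n.choose (k * a) * (n.factorial * X) := by
    rw [← h6]; exact mul_le_mul_of_nonneg_left h5 (Nat.cast_nonneg _)
  have hf : (0 : ℝ) < n.factorial := by exact_mod_cast n.factorial_pos
  nlinarith [h7, hf]

end blocks

lemma choose_id (n K : ℕ) (hn : 1 ≤ n) (hK : 1 ≤ K) :
    (K : ℝ) * (n.choose K : ℝ) = (n : ℝ) * ((n - 1).choose (K - 1) : ℝ) := by
  have hid : K * n.choose K = n * (n - 1).choose (K - 1) := by
    obtain ⟨n', rfl⟩ : ∃ n', n = n' + 1 := ⟨n - 1, by omega⟩
    obtain ⟨K', rfl⟩ : ∃ K', K = K' + 1 := ⟨K - 1, by omega⟩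
    have := Nat.add_one_mul_choose_eq n' K'
    simp only [Nat.add_sub_cancel]
    rw [this]; ring
  exact_mod_cast hid

/-- **Passing from `k` to a multiple `k * a` costs nothing in the constant.** -/
theorem goodAt_multiple (r k a : ℕ) (hk : 1 ≤ k) (ha : 1 ≤ a) (g ε : ℝ) (hg : 0 ≤ g)
    (hε : 0 < ε) (h : GoodAt r k g) : GoodAt r (k * a) (g + ε) := by
  classical
  obtain ⟨N, hN⟩ := h
  obtain ⟨L, hL⟩ := exists_nat_gt (g / ε)
  refine ⟨a * (N + k + L + 1), ?_⟩
  intro n hn H hH hlarge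
  by_contra hno
  obtain ⟨M, hMdef⟩ : ∃ M, M = n / a := ⟨_, rfl⟩
  have hM1 : N + k + L + 1 ≤ M := by
    rw [hMdef, Nat.le_div_iff_mul_le (by omega)]
    rw [Nat.mul_comm]; exact hn
  have hMa : M * a ≤ n := by rw [hMdef, Nat.mul_comm]; exact Nat.mul_div_le n a
  have hMa2 : n ≤ a * (M + 1) := by
    have h1 : n < a * (n / a + 1) := Nat.lt_mul_div_succ n (by omega)
    rw [← hMdef] at h1
    exact h1.le
  let ι : Fin M × Fin a ↪ Fin n :=
    (finProdFinEquiv.toEmbedding).trans (Fin.castLEEmb hMa)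
  have hX : ∀ σ : Equiv.Perm (Fin n),
      (((Finset.powersetCard k (Finset.univ : Finset (Fin M))).filter
      (fun S => (UB ι S).map σ.toEmbedding ∈ H)).card : ℝ)
      ≤ g * ((M - 1).choose (k - 1) : ℝ) := by
    intro σ
    by_contra hlt
    rw [not_le] at hlt
    apply hno
    refine split_transfer_blocks ι r ha σ H
      ((Finset.powersetCard k (Finset.univ : Finset (Fin M))).filter
      (fun S => (UB ι S).map σ.toEmbedding ∈ H)) ?_ ?_
    · intro f hf
      exact (Finset.mem_filter.1 hf).2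
    · refine hN M (by omega) _ ?_ hlt
      intro A hA
      exact (Finset.mem_powersetCard.1 (Finset.mem_filter.1 hA).1).2
  have hav := averaging_blocks ι H hH _ hX
  have hn1 : 1 ≤ n := le_trans (by nlinarith) hn
  have id1 := choose_id n (k * a) hn1 (Nat.mul_pos hk ha)
  have id2 := choose_id M k (by omega) hk
  have hCpos : (0 : ℝ) < (M.choose k : ℝ) := by
    exact_mod_cast Nat.choose_pos (by omega)
  have hkpos : (0 : ℝ) < k := by exact_mod_cast hk
  have hapos : (0 : ℝ) < a := by exact_mod_cast ha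
  have hMpos : (0 : ℝ) < M := by
    have : 0 < M := by omega
    exact_mod_cast this
  have hnR : (n : ℝ) ≤ a * (M + 1) := by exact_mod_cast hMa2
  set D : ℝ := ((n - 1).choose (k * a - 1) : ℝ) with hD
  have hD0 : 0 ≤ D := Nat.cast_nonneg _
  push_cast at id1
  -- M * (k a) * C(M,k) * |H| ≤ g * k * C(M,k) * n * D
  have h1 : (M.choose k : ℝ) * (k * (M * a * (H.card : ℝ)))
      ≤ (M.choose k : ℝ) * (k * (g * (a * (M + 1)) * D)) := by
    calc (M.choose k : ℝ) * (k * (M * a * (H.card : ℝ)))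
        = (M * (k * a)) * ((M.choose k : ℝ) * H.card) := by ring
      _ ≤ (M * (k * a)) * (g * ((M - 1).choose (k - 1) : ℝ) * n.choose (k * a)) :=
          mul_le_mul_of_nonneg_left hav (by positivity)
      _ = g * ((M : ℝ) * ((M - 1).choose (k - 1) : ℝ)) * ((k * a) * n.choose (k * a)) := by ring
      _ = g * (k * (M.choose k : ℝ)) * ((n : ℝ) * D) := by rw [id1, id2]
      _ ≤ g * (k * (M.choose k : ℝ)) * ((a * (M + 1)) * D) := by
          refine mul_le_mul_of_nonneg_left ?_ (by positivity)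
          exact mul_le_mul_of_nonneg_right hnR hD0
      _ = _ := by ring
  have h2 : M * a * (H.card : ℝ) ≤ g * (a * (M + 1)) * D :=
    le_of_mul_le_mul_left (le_of_mul_le_mul_left h1 hCpos) hkpos
  have h3 : a * (M * (H.card : ℝ)) ≤ a * (g * (M + 1) * D) := by
    calc a * (M * (H.card : ℝ)) = M * a * (H.card : ℝ) := by ring
      _ ≤ g * (a * (M + 1)) * D := h2
      _ = _ := by ring
  have h4 : M * (H.card : ℝ) ≤ g * (M + 1) * D := le_of_mul_le_mul_left h3 hapos
  have hgM : g ≤ ε * M := by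
    have h5 : g / ε < M := lt_of_lt_of_le hL (by
      have : L ≤ M := by omega
      exact_mod_cast this)
    rw [div_lt_iff₀ hε] at h5
    linarith
  have h6 : M * (H.card : ℝ) ≤ M * ((g + ε) * D) := by
    calc M * (H.card : ℝ) ≤ g * (M + 1) * D := h4
      _ = (g * M + g) * D := by ring
      _ ≤ (g * M + ε * M) * D := mul_le_mul_of_nonneg_right (by linarith) hD0
      _ = _ := by ring
  have h7 : (H.card : ℝ) ≤ (g + ε) * D := le_of_mul_le_mul_left h6 hMpos
  linarith

/-! ### Monotonicity in `r` -/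

lemma hasSplit_mono {r r' n : ℕ} (hr : r' ≤ r) (H : Finset (Finset (Fin n)))
    (h : HasSplit r H) : HasSplit r' H := by
  obtain ⟨A, B, h1, h2, h3⟩ := h
  refine ⟨fun i => A (Fin.castLE hr i), fun i => B (Fin.castLE hr i),
    fun i => h1 _, fun i j => h2 _ _, ?_⟩
  have e1 : Sum.elim (fun i => A (Fin.castLE hr i)) (fun i => B (Fin.castLE hr i))
      = Sum.elim A B ∘ Sum.map (Fin.castLE hr) (Fin.castLE hr) := by
    funext s; rcases s with s | s <;> rfl
  rw [e1]
  exact h3.comp (Sum.map_injective.2 ⟨Fin.castLE_injective hr, Fin.castLE_injective hr⟩)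

lemma goodAt_mono_r {r r' k : ℕ} (hr : r' ≤ r) (g : ℝ) (h : GoodAt r k g) : GoodAt r' k g := by
  obtain ⟨N, hN⟩ := h
  exact ⟨N, fun n hn H hH hl => hasSplit_mono hr H (hN n hn H hH hl)⟩

/-- The assertion of Q1 for one `r`. -/
def Q1For (r : ℕ) : Prop := ∃ (g : ℝ) (kr : ℕ), ∀ k ≥ kr, GoodAt r k g

theorem q1For_iff (r : ℕ) : Q1For r ↔ ∃ k : ℕ, 1 ≤ k ∧ ∃ g : ℝ, GoodAt r k g := by
  constructor
  · rintro ⟨g, kr, h⟩
    exact ⟨max kr 1, le_max_right _ _, g, h _ (le_max_left _ _)⟩
  · rintro ⟨k, hk, g, h⟩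
    refine ⟨2 * ((k : ℝ) ^ (k - 1) / ((k - 1).factorial : ℝ)) * max g 0, k, fun K hK => ?_⟩
    exact goodAt_mono_uniformity r k K hk hK _ (le_max_right _ _)
      (goodAt_mono_const r k g _ (le_max_left _ _) h)

/-- **MP_3581cd_co.** One uniformity suffices.

(1) The bound transfers from uniformity `k` to every uniformity `K ≥ k`, with the constant
multiplied by `2 k^(k-1)/(k-1)!`.
(2) From `k` to a multiple `k * a` it transfers with the same constant up to an arbitrarily small
error.
(3) For each `r`, the assertion of Q1 for `r` is equivalent to: for one single `k ≥ 1` there is a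
constant `g` for which the bound holds.
(4) Q1 itself is equivalent to: for arbitrarily large `r` there is such a `k`. -/
theorem result :
    (∀ (r k K : ℕ) (g : ℝ), 1 ≤ k → k ≤ K → 0 ≤ g → GoodAt r k g →
      GoodAt r K (2 * ((k : ℝ) ^ (k - 1) / ((k - 1).factorial : ℝ)) * g)) ∧
    (∀ (r k a : ℕ) (g ε : ℝ), 1 ≤ k → 1 ≤ a → 0 ≤ g → 0 < ε → GoodAt r k g →
      GoodAt r (k * a) (g + ε)) ∧
    (∀ r : ℕ, (∃ (g : ℝ) (kr : ℕ), ∀ k ≥ kr, GoodAt r k g) ↔
      ∃ k : ℕ, 1 ≤ k ∧ ∃ g : ℝ, GoodAt r k g) ∧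
    ((∀ r : ℕ, 3 ≤ r → ∃ (g : ℝ) (kr : ℕ), ∀ k ≥ kr, GoodAt r k g) ↔
      ∀ r₀ : ℕ, ∃ r : ℕ, r₀ ≤ r ∧ ∃ k : ℕ, 1 ≤ k ∧ ∃ g : ℝ, GoodAt r k g) := by
  refine ⟨fun r k K g hk hkK hg h => goodAt_mono_uniformity r k K hk hkK g hg h,
    fun r k a g ε hk ha hg hε h => goodAt_multiple r k a hk ha g ε hg hε h,
    fun r => q1For_iff r, ?_⟩
  constructor
  · intro h r₀
    exact ⟨max r₀ 3, le_max_left _ _, (q1For_iff _).1 (h _ (le_max_right _ _))⟩
  · intro h r _
    obtain ⟨r', hr', k, hk, g, hg⟩ := h r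
    exact (q1For_iff r).2 ⟨k, hk, g, goodAt_mono_r hr' g hg⟩

end Pool.Agent.Results.MP_3581cd_co.OneUniformity
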