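import Mathlib

/-!
# MP_3581cd_co : for `k ≤ 2r - 2` no constant works

Deletion method: if `1 ≤ k ≤ 2r-2` then for every `g` and infinitely many `n` there is a
`k`-uniform hypergraph on `n` vertices with more than `g * C(n-1,k-1)` edges and no `r`-fold split.
Hence `k_r ≥ 2r - 1` in Q1.
-/

namespace Pool.Agent.Results.MP_3581cd_co.SmallUniformity

open Finset

/-- `H` contains an `r`-fold split. -/
def HasSplit (r : ℕ) {n : ℕ} (H : Finset (Finset (Fin n))) : Prop :=
  ∃ A B : Fin r → Finset (Fin n),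
    (∀ i, A i ∈ H ∧ B i ∈ H ∧ Disjoint (A i) (B i)) ∧
    (∀ i j, A i ∪ B i = A j ∪ B j) ∧
    Function.Injective (Sum.elim A B)

section

variable {n q : ℕ}

/-- number of colourings with prescribed colour on `P` -/
lemma card_col (P : Finset (Finset (Fin n))) (c : Fin q) :
    ((Finset.univ : Finset (Finset (Fin n) → Fin q)).filter (fun χ => ∀ A ∈ P, χ A = c)).card
      * q ^ P.card = q ^ (2 ^ n) := by
  classical
  have h1 : (Finset.univ : Finset (Finset (Fin n) → Fin q)).filter (fun χ => ∀ A ∈ P, χ A = c)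
      = Fintype.piFinset (fun A : Finset (Fin n) => if A ∈ P then ({c} : Finset (Fin q))
        else Finset.univ) := by
    ext χ
    rw [Finset.mem_filter, Fintype.mem_piFinset]
    constructor
    · rintro ⟨_, h⟩ A
      by_cases hA : A ∈ P
      · rw [if_pos hA, Finset.mem_singleton]; exact h A hA
      · rw [if_neg hA]; exact Finset.mem_univ _
    · intro h
      refine ⟨Finset.mem_univ _, fun A hA => ?_⟩
      have := h A
      rw [if_pos hA, Finset.mem_singleton] at this
      exact this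
  rw [h1, Fintype.card_piFinset]
  have h2 : ∀ A : Finset (Fin n), (if A ∈ P then ({c} : Finset (Fin q))
        else Finset.univ).card = if A ∈ P then 1 else q := by
    intro A
    by_cases hA : A ∈ P
    · rw [if_pos hA, if_pos hA, Finset.card_singleton]
    · rw [if_neg hA, if_neg hA, Finset.card_univ, Fintype.card_fin]
  rw [Finset.prod_congr rfl (fun A _ => h2 A)]
  have h3 : (∏ A : Finset (Fin n), if A ∈ P then 1 else q) = q ^ (Pᶜ).card := by
    rw [Finset.prod_ite, Finset.prod_const_one, one_mul, Finset.prod_const]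
    congr 2
    ext A; simp
  rw [h3, ← pow_add, Finset.card_compl_add_card]
  simp

/-- the families of `2r` distinct `k`-sets inside a `2k`-set -/
def fam (n k r : ℕ) : Finset (Finset (Finset (Fin n))) :=
  (Finset.powersetCard (2 * k) (Finset.univ : Finset (Fin n))).biUnion
    (fun U => Finset.powersetCard (2 * r) (Finset.powersetCard k U))

lemma card_fam_le (n k r : ℕ) :
    (fam n k r).card ≤ n ^ (2 * k) * ((2 * k).choose k).choose (2 * r) := by
  unfold fam
  refine le_trans Finset.card_biUnion_le ?_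
  have h : ∀ U ∈ Finset.powersetCard (2 * k) (Finset.univ : Finset (Fin n)),
      (Finset.powersetCard (2 * r) (Finset.powersetCard k U)).card
        = ((2 * k).choose k).choose (2 * r) := by
    intro U hU
    rw [Finset.card_powersetCard, Finset.card_powersetCard, (Finset.mem_powersetCard.1 hU).2]
  rw [Finset.sum_congr rfl h, Finset.sum_const, smul_eq_mul, Finset.card_powersetCard,
    Finset.card_univ, Fintype.card_fin]
  exact Nat.mul_le_mul_right _ (Nat.choose_le_pow n (2 * k))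

lemma fam_card {k r : ℕ} {P : Finset (Finset (Fin n))} (hP : P ∈ fam n k r) :
    P.card = 2 * r := by
  unfold fam at hP
  obtain ⟨U, _, h⟩ := Finset.mem_biUnion.1 hP
  exact (Finset.mem_powersetCard.1 h).2

/-- the deletion step -/
lemma deletion (k r : ℕ) (hr : 1 ≤ r) (H : Finset (Finset (Fin n)))
    (hH : ∀ A ∈ H, A.card = k) :
    ∃ H' ⊆ H, ¬ HasSplit r H' ∧
      H.card ≤ H'.card + ((fam n k r).filter (fun P => P ⊆ H)).card := by
  classical
  have hne : ∀ P ∈ (fam n k r).filter (fun P => P ⊆ H), ∃ A, A ∈ P := by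
    intro P hP
    have h := fam_card (Finset.mem_filter.1 hP).1
    have : 0 < P.card := by omega
    exact Finset.card_pos.1 this
  let pick : Finset (Finset (Fin n)) → Finset (Fin n) := fun P =>
    if h : ∃ A, A ∈ P then h.choose else ∅
  have hpick : ∀ P ∈ (fam n k r).filter (fun P => P ⊆ H), pick P ∈ P := by
    intro P hP
    have h := hne P hP
    change (if h : ∃ A, A ∈ P then h.choose else ∅) ∈ P
    rw [dif_pos h]; exact h.choose_spec
  refine ⟨H \ (((fam n k r).filter (fun P => P ⊆ H)).image pick), Finset.sdiff_subset, ?_, ?_⟩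
  · rintro ⟨A, B, h1, h2, h3⟩
    have i0 : Fin r := ⟨0, hr⟩
    let P : Finset (Finset (Fin n)) := Finset.univ.image (Sum.elim A B)
    have hPc : P.card = 2 * r := by
      rw [Finset.card_image_of_injective _ h3, Finset.card_univ, Fintype.card_sum,
        Fintype.card_fin]; ring
    have hPH' : ∀ X ∈ P, X ∈ H \ (((fam n k r).filter (fun P => P ⊆ H)).image pick) := by
      intro X hX
      obtain ⟨s, _, rfl⟩ := Finset.mem_image.1 hX
      rcases s with s | s
      · exact (h1 s).1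
      · exact (h1 s).2.1
    have hPH : P ⊆ H := fun X hX => (Finset.mem_sdiff.1 (hPH' X hX)).1
    have hPf : P ∈ fam n k r := by
      unfold fam
      refine Finset.mem_biUnion.2 ⟨A i0 ∪ B i0, ?_, ?_⟩
      · rw [Finset.mem_powersetCard]
        refine ⟨Finset.subset_univ _, ?_⟩
        rw [Finset.card_union_of_disjoint (h1 i0).2.2,
          hH _ (Finset.mem_sdiff.1 (h1 i0).1).1, hH _ (Finset.mem_sdiff.1 (h1 i0).2.1).1]
        ring
      · rw [Finset.mem_powersetCard]
        refine ⟨?_, hPc⟩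
        intro X hX
        rw [Finset.mem_powersetCard]
        refine ⟨?_, hH X (hPH hX)⟩
        obtain ⟨s, _, rfl⟩ := Finset.mem_image.1 hX
        rcases s with s | s
        · change A s ⊆ _
          rw [h2 i0 s]; exact Finset.subset_union_left
        · change B s ⊆ _
          rw [h2 i0 s]; exact Finset.subset_union_right
    have hPm : P ∈ (fam n k r).filter (fun P => P ⊆ H) := Finset.mem_filter.2 ⟨hPf, hPH⟩
    have h4 := hPH' _ (hpick P hPm)
    exact (Finset.mem_sdiff.1 h4).2 (Finset.mem_image_of_mem _ hPm)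
  · have h5 := Finset.card_image_le (s := (fam n k r).filter (fun P => P ⊆ H)) (f := pick)
    have h6 := Finset.le_card_sdiff (((fam n k r).filter (fun P => P ⊆ H)).image pick) H
    omega

/-- the colour class -/
def cls (k : ℕ) (c : Fin q) (χ : Finset (Fin n) → Fin q) : Finset (Finset (Fin n)) :=
  (Finset.powersetCard k (Finset.univ : Finset (Fin n))).filter (fun A => χ A = c)

lemma sum_cls (k : ℕ) (c : Fin q) :
    (∑ χ : Finset (Fin n) → Fin q, (cls k c χ).card) * q = n.choose k * q ^ (2 ^ n) := by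
  classical
  have h2 := Finset.sum_card_bipartiteAbove_eq_sum_card_bipartiteBelow
    (s := Finset.powersetCard k (Finset.univ : Finset (Fin n)))
    (t := (Finset.univ : Finset (Finset (Fin n) → Fin q)))
    (fun (A : Finset (Fin n)) (χ : Finset (Fin n) → Fin q) => χ A = c)
  have h3 : ∀ χ : Finset (Fin n) → Fin q, (cls k c χ).card
      = (Finset.bipartiteBelow (fun (A : Finset (Fin n)) (χ : Finset (Fin n) → Fin q) => χ A = c)
        (Finset.powersetCard k (Finset.univ : Finset (Fin n))) χ).card := fun χ => rfl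
  rw [Finset.sum_congr rfl (fun χ _ => h3 χ), ← h2, Finset.sum_mul]
  have h4 : ∀ A ∈ Finset.powersetCard k (Finset.univ : Finset (Fin n)),
      (Finset.bipartiteAbove (fun (A : Finset (Fin n)) (χ : Finset (Fin n) → Fin q) => χ A = c)
        (Finset.univ : Finset (Finset (Fin n) → Fin q)) A).card * q = q ^ (2 ^ n) := by
    intro A _
    have := card_col (n := n) (q := q) {A} c
    rw [Finset.card_singleton, pow_one] at this
    rw [← this]
    congr 2
    ext χ
    simp [Finset.bipartiteAbove]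
  rw [Finset.sum_congr rfl h4, Finset.sum_const, smul_eq_mul, Finset.card_powersetCard,
    Finset.card_univ, Fintype.card_fin]

lemma fam_uniform {k r : ℕ} {P : Finset (Finset (Fin n))} (hP : P ∈ fam n k r)
    {A : Finset (Fin n)} (hA : A ∈ P) : A.card = k := by
  unfold fam at hP
  obtain ⟨U, _, h⟩ := Finset.mem_biUnion.1 hP
  exact (Finset.mem_powersetCard.1 ((Finset.mem_powersetCard.1 h).1 hA)).2

lemma sum_fam (k r : ℕ) (c : Fin q) :
    (∑ χ : Finset (Fin n) → Fin q, ((fam n k r).filter (fun P => P ⊆ cls k c χ)).card)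
      * q ^ (2 * r) = (fam n k r).card * q ^ (2 ^ n) := by
  classical
  have h2 := Finset.sum_card_bipartiteAbove_eq_sum_card_bipartiteBelow
    (s := fam n k r)
    (t := (Finset.univ : Finset (Finset (Fin n) → Fin q)))
    (fun (P : Finset (Finset (Fin n))) (χ : Finset (Fin n) → Fin q) => ∀ A ∈ P, χ A = c)
  have h3 : ∀ χ : Finset (Fin n) → Fin q,
      ((fam n k r).filter (fun P => P ⊆ cls k c χ)).card
      = (Finset.bipartiteBelow (fun (P : Finset (Finset (Fin n)))
        (χ : Finset (Fin n) → Fin q) => ∀ A ∈ P, χ A = c) (fam n k r) χ).card := by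
    intro χ
    unfold Finset.bipartiteBelow
    congr 1
    apply Finset.filter_congr
    intro P hP
    constructor
    · intro h A hA
      exact (Finset.mem_filter.1 (h hA)).2
    · intro h A hA
      exact Finset.mem_filter.2 ⟨Finset.mem_powersetCard.2
        ⟨Finset.subset_univ _, fam_uniform hP hA⟩, h A hA⟩
  rw [Finset.sum_congr rfl (fun χ _ => h3 χ), ← h2, Finset.sum_mul]
  have h4 : ∀ P ∈ fam n k r,
      (Finset.bipartiteAbove (fun (P : Finset (Finset (Fin n)))
        (χ : Finset (Fin n) → Fin q) => ∀ A ∈ P, χ A = c)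
        (Finset.univ : Finset (Finset (Fin n) → Fin q)) P).card * q ^ (2 * r) = q ^ (2 ^ n) := by
    intro P hP
    have := card_col (n := n) (q := q) P c
    rw [fam_card hP] at this
    exact this
  rw [Finset.sum_congr rfl h4, Finset.sum_const, smul_eq_mul]

lemma exists_large (k r : ℕ) (hr : 1 ≤ r) (hq : 1 ≤ q) :
    ∃ H : Finset (Finset (Fin n)), (∀ A ∈ H, A.card = k) ∧ ¬ HasSplit r H ∧
      (n.choose k : ℝ) / q - ((fam n k r).card : ℝ) / (q : ℝ) ^ (2 * r) ≤ (H.card : ℝ) := by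
  classical
  let c : Fin q := ⟨0, hq⟩
  have hqR : (0 : ℝ) < q := by exact_mod_cast hq
  by_contra hno
  push Not at hno
  have key : ∀ χ : Finset (Fin n) → Fin q, ((cls k c χ).card : ℝ)
      < (((fam n k r).filter (fun P => P ⊆ cls k c χ)).card : ℝ)
        + ((n.choose k : ℝ) / q - ((fam n k r).card : ℝ) / (q : ℝ) ^ (2 * r)) := by
    intro χ
    have hu : ∀ A ∈ cls k c χ, A.card = k := fun A hA =>
      (Finset.mem_powersetCard.1 (Finset.mem_filter.1 hA).1).2
    obtain ⟨H', h1, h2, h3⟩ := deletion k r hr (cls k c χ) hu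
    have h4 := hno H' (fun A hA => hu A (h1 hA)) h2
    have h5 : ((cls k c χ).card : ℝ) ≤ (H'.card : ℝ)
        + (((fam n k r).filter (fun P => P ⊆ cls k c χ)).card : ℝ) := by exact_mod_cast h3
    linarith
  have : Nonempty (Finset (Fin n) → Fin q) := ⟨fun _ => c⟩
  have hsum := Finset.sum_lt_sum_of_nonempty
    (s := (Finset.univ : Finset (Finset (Fin n) → Fin q))) Finset.univ_nonempty
    (fun χ _ => key χ)
  rw [Finset.sum_add_distrib, Finset.sum_const, nsmul_eq_mul, Finset.card_univ,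
    Fintype.card_fun, Fintype.card_finset, Fintype.card_fin, Fintype.card_fin] at hsum
  have e1 : (∑ χ : Finset (Fin n) → Fin q, ((cls k c χ).card : ℝ)) * q
      = n.choose k * (q : ℝ) ^ (2 ^ n) := by
    have := sum_cls (n := n) (q := q) k c
    exact_mod_cast this
  have e2 : (∑ χ : Finset (Fin n) → Fin q,
      (((fam n k r).filter (fun P => P ⊆ cls k c χ)).card : ℝ)) * (q : ℝ) ^ (2 * r)
      = (fam n k r).card * (q : ℝ) ^ (2 ^ n) := by
    have := sum_fam (n := n) (q := q) k r c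
    exact_mod_cast this
  have e3 : (∑ χ : Finset (Fin n) → Fin q, ((cls k c χ).card : ℝ))
      = n.choose k * (q : ℝ) ^ (2 ^ n) / q := by
    rw [eq_div_iff hqR.ne']; exact e1
  have hq2 : (0 : ℝ) < (q : ℝ) ^ (2 * r) := pow_pos hqR _
  have e4 : (∑ χ : Finset (Fin n) → Fin q,
      (((fam n k r).filter (fun P => P ⊆ cls k c χ)).card : ℝ))
      = (fam n k r).card * (q : ℝ) ^ (2 ^ n) / (q : ℝ) ^ (2 * r) := by
    rw [eq_div_iff hq2.ne']; exact e2
  rw [e3, e4, Nat.cast_pow] at hsum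
  generalize (q : ℝ) ^ (2 ^ n) = Q at hsum
  generalize (q : ℝ) ^ (2 * r) = w at hsum
  generalize ((fam n k r).card : ℝ) = F at hsum
  generalize (n.choose k : ℝ) = C at hsum
  have e5 : F * Q / w + Q * (C / q - F / w) = C * Q / q := by ring
  linarith

end

/-- the quantitative statement -/
theorem lower (r k : ℕ) (hk : 1 ≤ k) (hkr : k + 2 ≤ 2 * r) (g : ℝ) (N : ℕ) :
    ∃ n ≥ N, ∃ H : Finset (Finset (Fin n)), (∀ A ∈ H, A.card = k) ∧
      g * ((n - 1).choose (k - 1) : ℝ) < (H.card : ℝ) ∧ ¬ HasSplit r H := by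
  classical
  set c : ℝ := (((2 * k).choose k).choose (2 * r) : ℝ) with hc
  have hc0 : 0 ≤ c := Nat.cast_nonneg _
  set c1 : ℝ := 1 / (2 ^ k * (k.factorial : ℝ)) with hc1
  have hc1p : 0 < c1 := by positivity
  obtain ⟨L, hL⟩ := exists_nat_gt (max (2 * c / c1) 1)
  have hL1 : (1 : ℝ) < L := lt_of_le_of_lt (le_max_right _ _) hL
  have hL2 : 2 * c ≤ c1 * L := by
    have h1 : 2 * c / c1 < L := lt_of_le_of_lt (le_max_left _ _) hL
    rw [div_lt_iff₀ hc1p] at h1
    linarith
  obtain ⟨t, ht⟩ := exists_nat_gt (max (2 * L * |g| / c1) (N + 2 * k + 1 : ℕ))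
  have ht1 : 2 * L * |g| < c1 * t := by
    have h1 : 2 * L * |g| / c1 < t := lt_of_le_of_lt (le_max_left _ _) ht
    rw [div_lt_iff₀ hc1p] at h1
    linarith
  have ht2 : N + 2 * k + 1 < t := by
    have h1 : ((N + 2 * k + 1 : ℕ) : ℝ) < t := lt_of_le_of_lt (le_max_right _ _) ht
    exact_mod_cast h1
  obtain ⟨d, hd⟩ : ∃ d, 2 * r - 1 = k + (d + 1) := ⟨2 * r - 1 - k - 1, by omega⟩
  have htn : t ≤ t ^ (2 * r - 1) := Nat.le_self_pow (by omega) t
  have hLpos : 0 < L := by
    have : (0 : ℝ) < L := by linarith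
    exact_mod_cast this
  have htpos : 0 < t := by omega
  refine ⟨t ^ (2 * r - 1), by omega, ?_⟩
  obtain ⟨H, hH, hns, hlow⟩ := exists_large (n := t ^ (2 * r - 1)) (q := L * t ^ k) k r
    (by omega) (Nat.mul_pos hLpos (pow_pos htpos _))
  refine ⟨H, hH, lt_of_lt_of_le ?_ hlow, hns⟩
  set n : ℕ := t ^ (2 * r - 1) with hn
  have hn2k : 2 * k ≤ n := by omega
  have hnpos : (0 : ℝ) < n := by
    have : 0 < n := by omega
    exact_mod_cast this
  have htR : (0 : ℝ) < t := by exact_mod_cast htpos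
  have hLR : (0 : ℝ) < L := by exact_mod_cast hLpos
  -- lower bound for the binomial
  have hb1 : c1 * (n : ℝ) ^ k ≤ (n.choose k : ℝ) := by
    have h1 := Nat.pow_le_choose (α := ℝ) k n
    refine le_trans ?_ h1
    have h2 : (n : ℝ) / 2 ≤ ((n + 1 - k : ℕ) : ℝ) := by
      rw [div_le_iff₀ (by norm_num)]
      have : n ≤ (n + 1 - k) * 2 := by omega
      exact_mod_cast this
    have h3 : ((n : ℝ) / 2) ^ k ≤ ((n + 1 - k : ℕ) : ℝ) ^ k :=
      pow_le_pow_left₀ (by positivity) h2 k
    have h4 : c1 * (n : ℝ) ^ k = ((n : ℝ) / 2) ^ k / (k.factorial : ℝ) := by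
      rw [hc1, div_pow]; field_simp
    rw [h4]
    exact div_le_div_of_nonneg_right h3 (by positivity)
  have hb2 : ((n - 1).choose (k - 1) : ℝ) ≤ (n : ℝ) ^ (k - 1) := by
    have h1 : (n - 1).choose (k - 1) ≤ (n - 1) ^ (k - 1) := Nat.choose_le_pow _ _
    have h2 : (n - 1) ^ (k - 1) ≤ n ^ (k - 1) := Nat.pow_le_pow_left (Nat.sub_le _ _) _
    exact_mod_cast le_trans h1 h2
  have hfam : ((fam n k r).card : ℝ) ≤ (n : ℝ) ^ (2 * k) * c := by
    have := card_fam_le n k r
    rw [hc]; exact_mod_cast this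
  -- q
  set q : ℝ := ((L * t ^ k : ℕ) : ℝ) with hq
  have hqe : q = L * (t : ℝ) ^ k := by rw [hq]; push_cast; ring
  have hqpos : 0 < q := by rw [hqe]; positivity
  have hnR : (n : ℝ) = (t : ℝ) ^ (2 * r - 1) := by rw [hn]; push_cast; ring
  have hq2 : q ^ (2 * r) = q * ((L : ℝ) ^ (2 * r - 1) * (n : ℝ) ^ k) := by
    have e1 : 2 * r = (2 * r - 1) + 1 := by omega
    have e2 : q ^ (2 * r) = q ^ ((2 * r - 1) + 1) := by rw [← e1]
    rw [e2, pow_succ, hqe, mul_pow, hnR, ← pow_mul, ← pow_mul, Nat.mul_comm k (2 * r - 1)]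
    ring
  have hLL : (L : ℝ) ≤ (L : ℝ) ^ (2 * r - 1) := le_self_pow₀ hL1.le (by omega)
  have hnk : (0 : ℝ) < (n : ℝ) ^ k := pow_pos hnpos k
  have hterm : ((fam n k r).card : ℝ) / q ^ (2 * r) ≤ c1 * (n : ℝ) ^ k / 2 / q := by
    rw [hq2, div_le_div_iff₀ (by positivity) hqpos]
    have h1 : ((fam n k r).card : ℝ) ≤ (n : ℝ) ^ k * (n : ℝ) ^ k * c := by
      refine le_trans hfam (le_of_eq ?_)
      rw [← pow_add]; congr 2; ring
    have h2 : (n : ℝ) ^ k * (n : ℝ) ^ k * c
        ≤ c1 * (n : ℝ) ^ k / 2 * ((L : ℝ) ^ (2 * r - 1) * (n : ℝ) ^ k) := by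
      have h3 : 2 * c ≤ c1 * (L : ℝ) ^ (2 * r - 1) :=
        le_trans hL2 (mul_le_mul_of_nonneg_left hLL hc1p.le)
      have h4 : (n : ℝ) ^ k * (n : ℝ) ^ k * (2 * c)
          ≤ (n : ℝ) ^ k * (n : ℝ) ^ k * (c1 * (L : ℝ) ^ (2 * r - 1)) :=
        mul_le_mul_of_nonneg_left h3 (by positivity)
      nlinarith [h4]
    calc ((fam n k r).card : ℝ) * q ≤ (c1 * (n : ℝ) ^ k / 2 * ((L : ℝ) ^ (2 * r - 1)
          * (n : ℝ) ^ k)) * q := mul_le_mul_of_nonneg_right (le_trans h1 h2) hqpos.le
      _ = _ := by ring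
  have hmain : c1 * (n : ℝ) ^ k / 2 / q ≤ (n.choose k : ℝ) / q
      - ((fam n k r).card : ℝ) / q ^ (2 * r) := by
    have h1 : c1 * (n : ℝ) ^ k / q ≤ (n.choose k : ℝ) / q :=
      div_le_div_of_nonneg_right hb1 hqpos.le
    have h2 : c1 * (n : ℝ) ^ k / q = c1 * (n : ℝ) ^ k / 2 / q + c1 * (n : ℝ) ^ k / 2 / q := by
      field_simp; ring
    linarith
  refine lt_of_lt_of_le ?_ hmain
  -- g * n^(k-1) < c1 n^k / (2 q)
  have hnk1 : (n : ℝ) ^ k = (n : ℝ) ^ (k - 1) * n := by
    rw [← pow_succ]; congr 1; omega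
  have hnt : (t : ℝ) ^ k * t ≤ n := by
    rw [hnR, hd, ← pow_succ]
    exact pow_le_pow_right₀ (by exact_mod_cast htpos) (by omega)
  have hP : (0 : ℝ) < (n : ℝ) ^ (k - 1) := pow_pos hnpos _
  have h1 : g * ((n - 1).choose (k - 1) : ℝ) ≤ |g| * (n : ℝ) ^ (k - 1) :=
    le_trans (mul_le_mul_of_nonneg_right (le_abs_self g) (Nat.cast_nonneg _))
      (mul_le_mul_of_nonneg_left hb2 (abs_nonneg g))
  refine lt_of_le_of_lt h1 ?_
  rw [lt_div_iff₀ hqpos, hnk1, hqe]
  have h2 : |g| * (2 * (L * (t : ℝ) ^ k)) < c1 * n := by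
    calc |g| * (2 * (L * (t : ℝ) ^ k)) = (2 * L * |g|) * (t : ℝ) ^ k := by ring
      _ < (c1 * t) * (t : ℝ) ^ k := mul_lt_mul_of_pos_right ht1 (by positivity)
      _ = c1 * ((t : ℝ) ^ k * t) := by ring
      _ ≤ c1 * n := mul_le_mul_of_nonneg_left hnt hc1p.le
  nlinarith [mul_lt_mul_of_pos_left h2 hP]

/-- For all large `n`, every `k`-uniform hypergraph on `n` vertices with more than
`g * C(n-1,k-1)` edges contains an `r`-fold split. -/
def GoodAt (r k : ℕ) (g : ℝ) : Prop :=
  ∃ N : ℕ, ∀ n ≥ N, ∀ H : Finset (Finset (Fin n)), (∀ A ∈ H, A.card = k) →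
    g * ((n - 1).choose (k - 1) : ℝ) < (H.card : ℝ) → HasSplit r H

/-- **MP_3581cd_co.** (1) If `1 ≤ k ≤ 2r - 2` then no constant works in uniformity `k`.
(2) Hence `k_r ≥ 2r - 1` for every admissible pair `(g, k_r)` of Q1. -/
theorem result :
    (∀ (r k : ℕ), 1 ≤ k → k + 2 ≤ 2 * r → ∀ g : ℝ, ¬ GoodAt r k g) ∧
    (∀ (r : ℕ), 2 ≤ r → ∀ (g : ℝ) (kr : ℕ), (∀ k ≥ kr, GoodAt r k g) → 2 * r - 1 ≤ kr) := by
  have h1 : ∀ (r k : ℕ), 1 ≤ k → k + 2 ≤ 2 * r → ∀ g : ℝ, ¬ GoodAt r k g := by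
    rintro r k hk hkr g ⟨N, hN⟩
    obtain ⟨n, hn, H, hH, hl, hns⟩ := lower r k hk hkr g N
    exact hns (hN n hn H hH hl)
  refine ⟨h1, ?_⟩
  intro r hr g kr h
  by_contra hlt
  exact h1 r (2 * r - 2) (by omega) (by omega) g (h _ (by omega))

end Pool.Agent.Results.MP_3581cd_co.SmallUniformity
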